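import Mathlib
import Pool.Prelude.Def_F_58bd55a0

set_option autoImplicit false

/-!
Every set of `N` integers has a subset without `k` terms in progression of size at least `23/96` of
the maximum for the interval.
-/

namespace H346R3.RG

open Finset

/-- indicator of the window with index `m` -/
noncomputable def ind (p w : ℕ) (m : ℤ) (z : ZMod p) : ℝ :=
  if 2 * (w : ℤ) * m ≤ (z.val : ℤ) ∧ (z.val : ℤ) < 2 * (w : ℤ) * m + w then 1 else 0

lemma ind_sq (p w : ℕ) (m : ℤ) (z : ZMod p) : ind p w m z * ind p w m z = ind p w m z := by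
  unfold ind
  split_ifs <;> simp

lemma sum_ind (p w : ℕ) [NeZero p] (m : ℤ) (hm : 0 ≤ m) (h : 2 * (w : ℤ) * m + w ≤ p) :
    ∑ z : ZMod p, ind p w m z = w := by
  classical
  obtain ⟨m', rfl⟩ := Int.eq_ofNat_of_zero_le hm
  unfold ind
  rw [← Finset.sum_filter, Finset.sum_const, nsmul_eq_mul, mul_one]
  norm_cast
  have : (univ.filter fun z : ZMod p => 2 * w * m' ≤ z.val ∧ z.val < 2 * w * m' + w).image
      (ZMod.val) = Finset.Ico (2 * w * m') (2 * w * m' + w) := by
    ext y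
    simp only [mem_image, mem_filter, mem_univ, true_and, mem_Ico]
    constructor
    · rintro ⟨z, hz, rfl⟩
      exact hz
    · intro hy
      have hyp : y < p := by
        have : 2 * w * m' + w ≤ p := by exact_mod_cast h
        omega
      refine ⟨(y : ZMod p), ?_, ZMod.val_cast_of_lt hyp⟩
      rw [ZMod.val_cast_of_lt hyp]
      exact hy
  rw [← Finset.card_image_of_injective _ (ZMod.val_injective p), this]
  simp

lemma sum_one (p : ℕ) [NeZero p] (a : ZMod p) (f : ZMod p → ℝ) :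
    ∑ q : ZMod p × ZMod p, f (a * q.1 + q.2) = p * ∑ z : ZMod p, f z := by
  rw [Fintype.sum_prod_type]
  have : ∀ t : ZMod p, ∑ x : ZMod p, f (a * t + x) = ∑ z : ZMod p, f z := fun t =>
    Equiv.sum_comp (Equiv.addLeft (a * t)) f
  simp only [this, sum_const, nsmul_eq_mul]
  simp [ZMod.card]

lemma sum_two (p : ℕ) [Fact p.Prime] (a b : ZMod p) (hab : a ≠ b) (f g : ZMod p → ℝ) :
    ∑ q : ZMod p × ZMod p, f (a * q.1 + q.2) * g (b * q.1 + q.2)
      = (∑ z : ZMod p, f z) * ∑ z : ZMod p, g z := by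
  have hab' : a - b ≠ 0 := sub_ne_zero.2 hab
  let φ : ZMod p × ZMod p → ZMod p × ZMod p := fun q => (a * q.1 + q.2, b * q.1 + q.2)
  have hφ : Function.Bijective φ := by
    rw [← Finite.injective_iff_bijective]
    rintro ⟨t, x⟩ ⟨t', x'⟩ h
    simp only [φ, Prod.mk.injEq] at h
    obtain ⟨h1, h2⟩ := h
    have h3 : (a - b) * (t - t') = 0 := by linear_combination h1 - h2
    have h4 : t = t' := by
      rcases mul_eq_zero.1 h3 with h | h
      · exact absurd h hab'
      · exact sub_eq_zero.1 h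
    subst h4
    simp only [Prod.mk.injEq, true_and]
    linear_combination h1
  have h1 : ∑ q : ZMod p × ZMod p, f (a * q.1 + q.2) * g (b * q.1 + q.2)
      = ∑ q : ZMod p × ZMod p, f q.1 * g q.2 :=
    hφ.sum_comp (fun q : ZMod p × ZMod p => f q.1 * g q.2)
  rw [h1, Fintype.sum_prod_type, sum_mul_sum]

/-- number of elements of `S` in the window `m` -/
noncomputable def cnt (p w : ℕ) (S : Finset ℤ) (m : ℤ) (q : ZMod p × ZMod p) : ℕ :=
  #(S.filter fun a : ℤ => 2 * (w : ℤ) * m ≤ ((((a : ZMod p) * q.1 + q.2).val : ℕ) : ℤ) ∧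
    ((((a : ZMod p) * q.1 + q.2).val : ℕ) : ℤ) < 2 * (w : ℤ) * m + w)

lemma cnt_eq (p w : ℕ) (S : Finset ℤ) (m : ℤ) (q : ZMod p × ZMod p) :
    (cnt p w S m q : ℝ) = ∑ a ∈ S, ind p w m ((a : ZMod p) * q.1 + q.2) := by
  unfold cnt ind
  rw [← Finset.sum_filter, Finset.sum_const, nsmul_eq_mul, mul_one]

lemma sum_cnt (p w : ℕ) [NeZero p] (S : Finset ℤ) (m : ℤ) (hm : 0 ≤ m)
    (h : 2 * (w : ℤ) * m + w ≤ p) :
    ∑ q : ZMod p × ZMod p, (cnt p w S m q : ℝ) = #S * (p * w) := by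
  simp only [cnt_eq]
  rw [sum_comm]
  have : ∀ a ∈ S, ∑ q : ZMod p × ZMod p, ind p w m ((a : ZMod p) * q.1 + q.2) = p * w := by
    intro a _
    rw [sum_one p (a : ZMod p) (ind p w m), sum_ind p w m hm h]
  rw [sum_congr rfl this, sum_const, nsmul_eq_mul]

lemma sum_cnt_sq (p w : ℕ) [Fact p.Prime] (S : Finset ℤ)
    (hS : ∀ a ∈ S, ∀ b ∈ S, a ≠ b → (a : ZMod p) ≠ (b : ZMod p)) (m : ℤ) (hm : 0 ≤ m)
    (h : 2 * (w : ℤ) * m + w ≤ p) :
    ∑ q : ZMod p × ZMod p, (cnt p w S m q : ℝ) ^ 2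
      = #S * ((#S - 1) * (w : ℝ) ^ 2 + p * w) := by
  classical
  have e : ∀ q : ZMod p × ZMod p, (cnt p w S m q : ℝ) ^ 2
      = ∑ a ∈ S, ∑ b ∈ S, ind p w m ((a : ZMod p) * q.1 + q.2) *
        ind p w m ((b : ZMod p) * q.1 + q.2) := by
    intro q
    rw [cnt_eq, sq, sum_mul_sum]
  rw [sum_congr rfl (fun q _ => e q), sum_comm]
  have : ∀ a ∈ S, ∑ q : ZMod p × ZMod p, ∑ b ∈ S, ind p w m ((a : ZMod p) * q.1 + q.2) *
        ind p w m ((b : ZMod p) * q.1 + q.2) = (#S - 1) * (w : ℝ) ^ 2 + p * w := by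
    intro a ha
    rw [sum_comm, ← sum_erase_add _ _ ha]
    have e1 : ∑ q : ZMod p × ZMod p, ind p w m ((a : ZMod p) * q.1 + q.2) *
        ind p w m ((a : ZMod p) * q.1 + q.2) = p * w := by
      simp only [ind_sq]
      rw [sum_one p (a : ZMod p) (ind p w m), sum_ind p w m hm h]
    have e2 : ∀ b ∈ S.erase a, ∑ q : ZMod p × ZMod p, ind p w m ((a : ZMod p) * q.1 + q.2) *
        ind p w m ((b : ZMod p) * q.1 + q.2) = (w : ℝ) ^ 2 := by
      intro b hb
      rw [sum_two p (a : ZMod p) (b : ZMod p) (hS a ha b (mem_erase.1 hb).2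
        (Ne.symm (mem_erase.1 hb).1)) (ind p w m) (ind p w m), sum_ind p w m hm h]
      ring
    rw [e1, sum_congr rfl e2, sum_const, nsmul_eq_mul, card_erase_of_mem ha,
      Nat.cast_sub (Finset.card_pos.2 ⟨a, ha⟩)]
    simp
  rw [sum_congr rfl this, sum_const, nsmul_eq_mul]

lemma min_ge (r : ℕ) (hr : 1 ≤ r) (n : ℕ) :
    (n : ℝ) - ((n : ℝ) ^ 2 - n) / (2 * (2 * r - 1)) ≤ ((min n r : ℕ) : ℝ) := by
  have hr1 : (1 : ℝ) ≤ r := by exact_mod_cast hr
  have hc : (0 : ℝ) < 2 * (2 * r - 1) := by linarith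
  rcases Nat.lt_or_ge n r with h | h
  · rw [min_eq_left h.le]
    have h1 : 0 ≤ ((n : ℝ) ^ 2 - n) / (2 * (2 * r - 1)) := by
      apply div_nonneg _ hc.le
      rcases Nat.eq_zero_or_pos n with h0 | h0
      · subst h0; simp
      · have : (1 : ℝ) ≤ n := by exact_mod_cast h0
        nlinarith
    linarith
  · rw [min_eq_right h]
    rw [sub_le_iff_le_add, ← sub_le_iff_le_add', le_div_iff₀ hc]
    rcases Nat.lt_or_ge n (2 * r) with h2 | h2
    · have h3 : (n : ℝ) + 1 ≤ 2 * r := by exact_mod_cast h2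
      nlinarith [mul_nonneg (show (0 : ℝ) ≤ 2 * r - n by linarith)
        (show (0 : ℝ) ≤ 2 * r - 1 - n by linarith)]
    · have h3 : 2 * (r : ℝ) ≤ n := by exact_mod_cast h2
      nlinarith [mul_nonneg (show (0 : ℝ) ≤ n - 2 * r by linarith)
        (show (0 : ℝ) ≤ n - (2 * r - 1) by linarith)]

/-- a good pair of parameters -/
lemma exists_good (p w M r : ℕ) [Fact p.Prime] (hr : 1 ≤ r) (hM : 0 < M) (S : Finset ℤ)
    (hS : ∀ a ∈ S, ∀ b ∈ S, a ≠ b → (a : ZMod p) ≠ (b : ZMod p)) (hN : 0 < #S)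
    (hp : 32 * (2 * r) * M ^ 2 ≤ p) (hw1 : 4 * M * w ≤ p) (hw2 : p < 4 * M * (w + 1))
    (B : Finset ℤ) (hB : B ⊆ Icc (1 : ℤ) M) :
    ∃ q : ZMod p × ZMod p, (#B : ℝ) * (#S * (8 * (2 * r - 1) * M - #S)) ≤
      32 * (2 * r - 1) * M ^ 2 * ((∑ j ∈ B, min (cnt p w S (j - 1) q) r : ℕ) : ℝ) := by
  classical
  by_contra hcon
  push Not at hcon
  have hNpos := hN
  set N := #S with hNdef
  set c : ℝ := 2 * r - 1 with hc
  have hr1 : (1 : ℝ) ≤ r := by exact_mod_cast hr
  have hc1 : 1 ≤ c := by rw [hc]; linarith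
  have hp0 : 0 < p := (Fact.out : p.Prime).pos
  have hM1 : (1 : ℝ) ≤ M := by exact_mod_cast hM
  have hcard : (Fintype.card (ZMod p × ZMod p) : ℝ) = (p : ℝ) ^ 2 := by
    rw [Fintype.card_prod, ZMod.card]
    push_cast
    ring
  have hne : (univ : Finset (ZMod p × ZMod p)).Nonempty := univ_nonempty
  have h1 : ∑ q : ZMod p × ZMod p,
      (32 * c * M ^ 2 * ∑ j ∈ B, ((min (cnt p w S (j - 1) q) r : ℕ) : ℝ))
      < ∑ q : ZMod p × ZMod p, ((#B : ℝ) * (N * (8 * c * M - N))) := by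
    apply sum_lt_sum_of_nonempty hne
    intro q _
    have := hcon q
    push_cast at this ⊢
    exact this
  rw [sum_const, card_univ, nsmul_eq_mul, hcard] at h1
  set Z : ℝ := (N : ℝ) * (p * w) - N * (N - 1) * (w : ℝ) ^ 2 / (2 * c) with hZ
  have hlow : ∀ j ∈ B, 32 * c * M ^ 2 * Z ≤
      32 * c * M ^ 2 * ∑ q : ZMod p × ZMod p, ((min (cnt p w S (j - 1) q) r : ℕ) : ℝ) := by
    intro j hj
    have hj' := mem_Icc.1 (hB hj)
    have hm : 0 ≤ j - 1 := by linarith [hj'.1]
    have hb : 2 * (w : ℤ) * (j - 1) + w ≤ p := by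
      have h2 : (4 : ℤ) * M * w ≤ p := by exact_mod_cast hw1
      have h3 : (j - 1 : ℤ) ≤ M - 1 := by linarith [hj'.2]
      have h4 : (0 : ℤ) ≤ w := by positivity
      have h5 : 2 * (w : ℤ) * (j - 1) ≤ 2 * (w : ℤ) * (M - 1) :=
        mul_le_mul_of_nonneg_left h3 (by positivity)
      have h6 : (0 : ℤ) ≤ M * w := by positivity
      nlinarith
    have s1 := sum_cnt p w S (j - 1) hm hb
    have s2 := sum_cnt_sq p w S hS (j - 1) hm hb
    have s3 : ∑ q : ZMod p × ZMod p, ((cnt p w S (j - 1) q : ℝ) -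
        ((cnt p w S (j - 1) q : ℝ) ^ 2 - cnt p w S (j - 1) q) / (2 * c)) ≤
        ∑ q : ZMod p × ZMod p, ((min (cnt p w S (j - 1) q) r : ℕ) : ℝ) :=
      sum_le_sum fun q _ => min_ge r hr _
    rw [sum_sub_distrib, ← sum_div, sum_sub_distrib, s1, s2] at s3
    apply mul_le_mul_of_nonneg_left _ (by positivity)
    refine le_trans (le_of_eq ?_) s3
    rw [hZ]
    ring
  have h2 : (#B : ℝ) * (32 * c * M ^ 2 * Z) ≤
      ∑ q : ZMod p × ZMod p,
        (32 * c * M ^ 2 * ∑ j ∈ B, ((min (cnt p w S (j - 1) q) r : ℕ) : ℝ)) := by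
    rw [← mul_sum, sum_comm, mul_sum]
    refine le_trans (le_of_eq ?_) (sum_le_sum hlow)
    rw [sum_const, nsmul_eq_mul]
  have h3 : (p : ℝ) ^ 2 * (N * (8 * c * M - N)) ≤ 32 * c * M ^ 2 * Z := by
    have hN1 : (1 : ℝ) ≤ N := by exact_mod_cast hNpos
    have e1 : 4 * (M : ℝ) * w ≤ p := by exact_mod_cast hw1
    have e2 : (p : ℝ) < 4 * M * (w + 1) := by exact_mod_cast hw2
    have e3 : 32 * (2 * r) * (M : ℝ) ^ 2 ≤ p := by exact_mod_cast hp
    have hpp : (0 : ℝ) < p := by exact_mod_cast hp0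
    have hw0 : (0 : ℝ) ≤ w := Nat.cast_nonneg w
    obtain ⟨U, hU⟩ : ∃ U : ℝ, U = 4 * M * w := ⟨_, rfl⟩
    obtain ⟨e, he⟩ : ∃ e : ℝ, e = p - U := ⟨_, rfl⟩
    have hU0 : 0 ≤ U := by rw [hU]; positivity
    have he0 : 0 ≤ e := by rw [he, hU]; linarith
    have he1 : e ≤ 4 * M := by
      rw [he, hU]
      linarith
    have hep : e ≤ p := by linarith
    have hMe : 8 * c * M * e ≤ p := by
      have t1 : 8 * c * M * e ≤ 8 * c * M * (4 * M) :=
        mul_le_mul_of_nonneg_left he1 (by positivity)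
      have t2 : 8 * c * M * (4 * M) ≤ 32 * (2 * r) * (M : ℝ) ^ 2 := by
        rw [hc]
        nlinarith [sq_nonneg (M : ℝ)]
      linarith
    have hc0 : c ≠ 0 := by linarith
    have hUw : 32 * c * M ^ 2 * Z = N * (8 * c * M * p * U - (N - 1) * U ^ 2) := by
      rw [hZ, hU]
      field_simp
      ring
    rw [hUw]
    have hUe : U = p - e := by rw [he]; ring
    rw [hUe]
    have t1 : 0 ≤ ((N : ℝ) - 1) * (e * (2 * p - e)) := by
      apply mul_nonneg (by linarith)
      exact mul_nonneg he0 (by linarith)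
    have t2 : 0 ≤ (p : ℝ) * (p - 8 * c * M * e) := mul_nonneg hpp.le (by linarith)
    have t3 : 8 * c * M * p * (p - e) - ((N : ℝ) - 1) * (p - e) ^ 2
        = (p : ℝ) ^ 2 * (8 * c * M - N) + p * (p - 8 * c * M * e)
          + ((N : ℝ) - 1) * (e * (2 * p - e)) := by ring
    rw [t3]
    have t4 : (p : ℝ) ^ 2 * (N * (8 * c * M - N)) = N * ((p : ℝ) ^ 2 * (8 * c * M - N)) := by ring
    rw [t4]
    exact mul_le_mul_of_nonneg_left (by linarith) (by linarith)
  have h4 : (#B : ℝ) * ((p : ℝ) ^ 2 * (N * (8 * c * M - N))) ≤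
      (#B : ℝ) * (32 * c * M ^ 2 * Z) :=
    mul_le_mul_of_nonneg_left h3 (by positivity)
  have h5 : (p : ℝ) ^ 2 * ((#B : ℝ) * (N * (8 * c * M - N)))
      = (#B : ℝ) * ((p : ℝ) ^ 2 * (N * (8 * c * M - N))) := by ring
  linarith

lemma window_step (w : ℤ) (y0 y1 y2 m0 m1 m2 : ℤ)
    (h0 : 2 * w * m0 ≤ y0 ∧ y0 < 2 * w * m0 + w) (h1 : 2 * w * m1 ≤ y1 ∧ y1 < 2 * w * m1 + w)
    (h2 : 2 * w * m2 ≤ y2 ∧ y2 < 2 * w * m2 + w) (h : y0 + y2 = 2 * y1) : m0 + m2 = 2 * m1 := by
  have hw : 0 < w := by linarith [h0.1, h0.2]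
  have e1 : 2 * w * (m0 + m2 - 2 * m1) < 2 * w * 1 := by nlinarith [h0.1, h1.2, h2.1]
  have e2 : 2 * w * (-1) < 2 * w * (m0 + m2 - 2 * m1) := by nlinarith [h0.2, h1.1, h2.2]
  have e3 := lt_of_mul_lt_mul_left e1 (by linarith)
  have e4 := lt_of_mul_lt_mul_left e2 (by linarith)
  omega

lemma ap_of_step (m : ℕ → ℤ) (k : ℕ) (h : ∀ i, i + 2 < k → m i + m (i + 2) = 2 * m (i + 1)) :
    ∀ i, i < k → m i = m 0 + i * (m 1 - m 0) := by
  intro i
  induction i using Nat.twoStepInduction with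
  | zero => intro _; simp
  | one => intro _; simp
  | more n ih1 ih2 =>
    intro hn
    have a1 := ih1 (by omega)
    have a2 := ih2 (by omega)
    have a3 := h n hn
    push_cast at a2 ⊢
    linarith

/-- the heart of the matter -/
lemma exists_sub (k M : ℕ) (hk : 3 ≤ k) (hM : 0 < M) (S : Finset ℤ) (hN : 0 < #S) (B : Finset ℤ)
    (hB : B ⊆ Icc (1 : ℤ) M) (hBf : (B : Set ℤ).IsAPOfLengthFree (k : ℕ∞)) :
    ∃ T : Finset ℤ, T ⊆ S ∧ (T : Set ℤ).IsAPOfLengthFree (k : ℕ∞) ∧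
      (#B : ℝ) * (#S * (8 * (2 * k - 3) * M - #S)) ≤ 32 * (2 * k - 3) * M ^ 2 * (#T : ℝ) := by
  classical
  obtain ⟨r, rfl⟩ : ∃ r, k = r + 1 := ⟨k - 1, by omega⟩
  set D : ℕ := S.sup Int.natAbs with hD
  obtain ⟨p, hpge, hpp⟩ := Nat.exists_infinite_primes (32 * (2 * r) * M ^ 2 + 2 * D + 1)
  have : Fact p.Prime := ⟨hpp⟩
  have hp0 : 0 < p := hpp.pos
  set w : ℕ := p / (4 * M) with hw
  have h4N : 0 < 4 * M := by omega
  have hw1 : 4 * M * w ≤ p := Nat.mul_div_le p (4 * M)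
  have hw2 : p < 4 * M * (w + 1) := Nat.lt_mul_div_succ p h4N
  have hS : ∀ a ∈ S, ∀ b ∈ S, a ≠ b → (a : ZMod p) ≠ (b : ZMod p) := by
    intro a ha b hb hab h
    have h1 : ((a - b : ℤ) : ZMod p) = 0 := by push_cast; rw [h]; ring
    rw [ZMod.intCast_zmod_eq_zero_iff_dvd] at h1
    have ha' : a.natAbs ≤ D := Finset.le_sup (f := Int.natAbs) ha
    have hb' : b.natAbs ≤ D := Finset.le_sup (f := Int.natAbs) hb
    have h2 : (a - b).natAbs < p := by omega
    have h3 := Int.eq_zero_of_abs_lt_dvd h1 (by rw [Int.abs_eq_natAbs]; exact_mod_cast h2)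
    exact hab (by linarith)
  obtain ⟨q, hq⟩ := exists_good p w M r (by omega) hM S hS hN (by omega) hw1 hw2 B hB
  -- the value of an element
  let y : ℤ → ℤ := fun a => ((((a : ZMod p) * q.1 + q.2).val : ℕ) : ℤ)
  let C : ℤ → Finset ℤ := fun j => S.filter fun a : ℤ => 2 * (w : ℤ) * (j - 1) ≤ y a ∧
    y a < 2 * (w : ℤ) * (j - 1) + w
  have hC : ∀ j, #(C j) = cnt p w S (j - 1) q := fun j => rfl
  have hch : ∀ j, ∃ u : Finset ℤ, u ⊆ C j ∧ #u = min (#(C j)) r := fun j =>
    Finset.exists_subset_card_eq (min_le_left _ _)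
  choose u hu1 hu2 using hch
  have hdisj : ∀ i j a, a ∈ C i → a ∈ C j → i = j := by
    intro i j a hi hj
    have h1 := (mem_filter.1 hi).2
    have h2 := (mem_filter.1 hj).2
    have := window_step w (y a) (y a) (y a) (i - 1) (i - 1) (j - 1) h1 h1 h2 (by ring)
    linarith
  refine ⟨B.biUnion u, ?_, ?_, ?_⟩
  · intro a ha
    obtain ⟨j, _, hj⟩ := mem_biUnion.1 ha
    exact (mem_filter.1 (hu1 j hj)).1
  · intro t ht hAP
    exfalso
    obtain ⟨a, d, hcard, hset⟩ := hAP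
    -- the terms
    have hmem : ∀ i : ℕ, i < r + 1 → a + i * d ∈ B.biUnion u := by
      intro i hi
      have : a + (i : ℤ) * d ∈ t := by
        rw [hset]
        exact ⟨i, by exact_mod_cast hi, by simp⟩
      exact_mod_cast ht this
    have hd : d ≠ 0 := by
      rintro rfl
      have h1 : t ⊆ {a} := by
        rw [hset]
        rintro z ⟨n, _, rfl⟩
        simp
      have h2 := Set.encard_le_encard h1
      rw [Set.encard_singleton] at h2
      have h3 : t.encard = (r + 1 : ℕ) := hcard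
      rw [h3] at h2
      have h4 : r + 1 ≤ 1 := by exact_mod_cast h2
      omega
    have hex : ∀ i : ℕ, ∃ j : ℤ, i < r + 1 → j ∈ B ∧ a + i * d ∈ u j := by
      intro i
      by_cases hi : i < r + 1
      · obtain ⟨j, hj, hj'⟩ := mem_biUnion.1 (hmem i hi)
        exact ⟨j, fun _ => ⟨hj, hj'⟩⟩
      · exact ⟨0, fun h => absurd h hi⟩
    choose m hm using hex
    have hwin : ∀ i, i < r + 1 → 2 * (w : ℤ) * (m i - 1) ≤ y (a + i * d) ∧
        y (a + i * d) < 2 * (w : ℤ) * (m i - 1) + w := fun i hi =>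
      (mem_filter.1 (hu1 _ (hm i hi).2)).2
    have hrange : ∀ i, i < r + 1 → 2 * y (a + i * d) < p ∧ 0 ≤ y (a + i * d) := by
      intro i hi
      have h1 := hwin i hi
      have h2 := mem_Icc.1 (hB (hm i hi).1)
      have h3 : 2 * (w : ℤ) * (m i - 1) ≤ 2 * (w : ℤ) * (M - 1) :=
        mul_le_mul_of_nonneg_left (by linarith [h2.2]) (by positivity)
      have h4 : (4 : ℤ) * M * w ≤ p := by exact_mod_cast hw1
      have h5 : (0 : ℤ) ≤ w := by positivity
      refine ⟨by nlinarith, ?_⟩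
      exact Int.natCast_nonneg _
    have hstep : ∀ i, i + 2 < r + 1 → m i + m (i + 2) = 2 * m (i + 1) := by
      intro i hi
      have r0 := hrange i (by omega)
      have r1 := hrange (i + 1) (by omega)
      have r2 := hrange (i + 2) hi
      have hy : y (a + i * d) + y (a + (i + 2 : ℕ) * d) = 2 * y (a + (i + 1 : ℕ) * d) := by
        have hz : ((y (a + i * d) + y (a + (i + 2 : ℕ) * d) - 2 * y (a + (i + 1 : ℕ) * d) : ℤ) :
            ZMod p) = 0 := by
          simp only [y]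
          push_cast
          simp only [ZMod.natCast_zmod_val]
          ring
        rw [ZMod.intCast_zmod_eq_zero_iff_dvd] at hz
        have := Int.eq_zero_of_abs_lt_dvd hz (by rw [abs_lt]; constructor <;> linarith [r0.1, r0.2, r1.1, r1.2, r2.1, r2.2])
        linarith
      have := window_step w _ _ _ (m i - 1) (m (i + 1) - 1) (m (i + 2) - 1) (hwin i (by omega))
        (hwin (i + 1) (by omega)) (hwin (i + 2) hi) hy
      linarith
    have hap := ap_of_step m (r + 1) hstep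
    by_cases he : m 1 - m 0 = 0
    · -- all elements in one window
      have hall : ∀ i, i < r + 1 → a + (i : ℤ) * d ∈ u (m 0) := by
        intro i hi
        have e1 : m i = m 0 := by rw [hap i hi, he]; ring
        have := (hm i hi).2
        rwa [e1] at this
      have hsub : (range (r + 1)).image (fun i : ℕ => a + (i : ℤ) * d) ⊆ u (m 0) := by
        intro z hz
        obtain ⟨i, hi, rfl⟩ := mem_image.1 hz
        exact hall i (mem_range.1 hi)
      have hc3 : #((range (r + 1)).image (fun i : ℕ => a + (i : ℤ) * d)) = r + 1 := by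
        rw [card_image_of_injective, card_range]
        intro i j hij
        simp only [add_right_inj] at hij
        have := mul_right_cancel₀ hd hij
        exact_mod_cast this
      have h1 := card_le_card hsub
      rw [hc3, hu2] at h1
      have := min_le_right (#(C (m 0))) r
      omega
    · -- a progression in `B`
      set e := m 1 - m 0 with hedef
      let Q : Set ℤ := {z | ∃ n : ℕ, ∃ _ : (n : ℕ∞) < ((r + 1 : ℕ) : ℕ∞), m 0 + n • e = z}
      have hQB : Q ⊆ (B : Set ℤ) := by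
        rintro z ⟨n, hn, rfl⟩
        have hn' : n < r + 1 := by exact_mod_cast hn
        have := (hm n hn').1
        rw [hap n hn'] at this
        simpa using this
      have hQc : Q.encard = (r + 1 : ℕ) := by
        have : Q = (fun n : ℕ => m 0 + n • e) '' (Finset.range (r + 1) : Set ℕ) := by
          ext z
          simp only [Q, Set.mem_ofPred_eq, Set.mem_image, Finset.coe_range, Set.mem_Iio]
          constructor
          · rintro ⟨n, hn, rfl⟩
            exact ⟨n, by exact_mod_cast hn, rfl⟩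
          · rintro ⟨n, hn, rfl⟩
            exact ⟨n, by exact_mod_cast hn, rfl⟩
        rw [this, Set.InjOn.encard_image]
        · rw [Set.encard_coe_eq_coe_finsetCard, card_range]
        · intro n1 _ n2 _ h
          simp only [nsmul_eq_mul, add_right_inj] at h
          have := mul_right_cancel₀ he h
          exact_mod_cast this
      have hk1 := hBf Q hQB ⟨m 0, e, hQc, rfl⟩
      have : r + 1 ≤ 1 := by exact_mod_cast hk1
      omega
  · rw [card_biUnion]
    · have : ∑ j ∈ B, #(u j) = ∑ j ∈ B, min (cnt p w S (j - 1) q) r :=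
        sum_congr rfl fun j _ => by rw [hu2, hC]
      rw [this]
      have e1 : 2 * ((r + 1 : ℕ) : ℝ) - 3 = 2 * r - 1 := by push_cast; ring
      rw [e1]
      exact hq
    · intro i _ j _ hij
      change Disjoint (u i) (u j)
      rw [Finset.disjoint_left]
      intro z hz hz'
      exact hij (hdisj i j z (hu1 i hz) (hu1 j hz'))

end H346R3.RG
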