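import Mathlib
import Pool.Prelude.Def_F_58bd55a0
import Pool.Agent.H346R3.RG.Main

set_option autoImplicit false

/-!
Comparison of `R k M` and `G k N`.
-/

namespace H346R3.RG

open Finset Nb572fa8d Filter

lemma le_max (k : ℕ) (S T : Finset ℤ) (hTS : T ⊆ S)
    (hT : (T : Set ℤ).IsAPOfLengthFree (k : ℕ∞)) : #T ≤ S.maxAPFreeCard k := by
  classical
  unfold Finset.maxAPFreeCard
  exact Finset.le_sup (f := Finset.card) (mem_filter.2 ⟨mem_powerset.2 hTS, hT⟩)

lemma exists_max (k : ℕ) (hk : 3 ≤ k) (S : Finset ℤ) :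
    ∃ T : Finset ℤ, T ⊆ S ∧ (T : Set ℤ).IsAPOfLengthFree (k : ℕ∞) ∧ #T = S.maxAPFreeCard k := by
  classical
  unfold Finset.maxAPFreeCard
  have hne : (S.powerset.filter fun t : Finset ℤ ↦ (t : Set ℤ).IsAPOfLengthFree (k : ℕ∞)).Nonempty := by
    refine ⟨∅, mem_filter.2 ⟨by simp, ?_⟩⟩
    intro t ht hAP
    exfalso
    rw [Finset.coe_empty, Set.subset_empty_iff] at ht
    subst ht
    obtain ⟨a, d, hc, _⟩ := hAP
    have h1 : (∅ : Set ℤ).encard = (k : ℕ∞) := hc
    rw [Set.encard_empty] at h1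
    have h2 : k = 0 := by exact_mod_cast h1.symm
    omega
  obtain ⟨T, hT, he⟩ := Finset.exists_mem_eq_sup _ hne Finset.card
  rw [mem_filter, mem_powerset] at hT
  exact ⟨T, hT.1, hT.2, he.symm⟩

lemma exists_G (k N : ℕ) : ∃ S : Finset ℤ, #S = N ∧ S.maxAPFreeCard k = G k N := by
  have hne : {m : ℕ | ∃ s : Finset ℤ, s.card = N ∧ s.maxAPFreeCard k = m}.Nonempty :=
    ⟨_, Icc (1 : ℤ) N, by simp, rfl⟩
  exact Nat.sInf_mem hne

lemma R_le (k N : ℕ) : R k N ≤ N := by
  classical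
  unfold R Finset.maxAPFreeCard
  apply Finset.sup_le
  intro t ht
  have := card_le_card (mem_powerset.1 (mem_filter.1 ht).1)
  simpa using this

/-- the comparison with two parameters -/
lemma compare (k : ℕ) (hk : 3 ≤ k) (M N : ℕ) (hM : 0 < M) :
    (R k M : ℝ) * (N * (8 * (2 * k - 3) * M - N)) ≤ 32 * (2 * k - 3) * M ^ 2 * (G k N : ℝ) := by
  have hk3 : (3 : ℝ) ≤ k := by exact_mod_cast hk
  rcases Nat.eq_zero_or_pos N with h0 | hN
  · subst h0
    have : (0 : ℝ) ≤ 32 * (2 * k - 3) * M ^ 2 * (G k 0 : ℝ) := by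
      apply mul_nonneg _ (Nat.cast_nonneg _)
      apply mul_nonneg _ (by positivity)
      linarith
    simpa using this
  · obtain ⟨S, hS, hSG⟩ := exists_G k N
    obtain ⟨B, hB, hBf, hBc⟩ := exists_max k hk (Icc (1 : ℤ) M)
    obtain ⟨T, hT, hTf, hTc⟩ := exists_sub k M hk hM S (by omega) B hB hBf
    have h1 := le_max k S T hT hTf
    have h2 : (#T : ℝ) ≤ G k N := by
      rw [hSG] at h1
      exact_mod_cast h1
    have h3 : (#B : ℝ) = R k M := by
      rw [hBc]; rfl
    rw [h3, hS] at hTc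
    refine hTc.trans ?_
    apply mul_le_mul_of_nonneg_left h2
    apply mul_nonneg _ (by positivity)
    linarith

lemma free_of_three (k : ℕ) (hk : 3 ≤ k) (T : Set ℤ)
    (h : ∀ a ∈ T, ∀ b ∈ T, ∀ c ∈ T, a + c = b + b → a = b) :
    T.IsAPOfLengthFree (k : ℕ∞) := by
  intro t ht hAP
  exfalso
  obtain ⟨a, d, hc, hset⟩ := hAP
  have hmem : ∀ n : ℕ, n < k → a + n • d ∈ t := by
    intro n hn
    rw [hset]
    exact ⟨n, by exact_mod_cast hn, rfl⟩
  have h0 := ht (hmem 0 (by omega))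
  have h1 := ht (hmem 1 (by omega))
  have h2 := ht (hmem 2 (by omega))
  have h3 := h _ h0 _ h1 _ h2 (by simp only [nsmul_eq_mul]; push_cast; ring)
  have hd : d = 0 := by
    simp only [nsmul_eq_mul] at h3
    push_cast at h3
    linarith
  subst hd
  have h4 : t ⊆ {a} := by
    rw [hset]
    rintro z ⟨n, _, rfl⟩
    simp
  have h5 := Set.encard_le_encard h4
  rw [Set.encard_singleton] at h5
  have h6 : t.encard = (k : ℕ∞) := hc
  rw [h6] at h5
  have h7 : k ≤ 1 := by exact_mod_cast h5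
  omega

lemma roth_le_R (k : ℕ) (hk : 3 ≤ k) (N : ℕ) : rothNumberNat N ≤ R k N := by
  classical
  obtain ⟨t, ht, htc, htf⟩ := rothNumberNat_spec N
  rw [← htc]
  have hinj : Function.Injective (fun n : ℕ => (n : ℤ) + 1) := by
    intro a b h
    simp only [add_left_inj] at h
    exact_mod_cast h
  rw [← card_image_of_injective t hinj]
  apply le_max
  · intro z hz
    obtain ⟨n, hn, rfl⟩ := mem_image.1 hz
    have := mem_range.1 (ht hn)
    rw [mem_Icc]
    constructor <;> omega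
  · apply free_of_three k hk
    intro a ha b hb c hc habc
    rw [coe_image] at ha hb hc
    obtain ⟨a', ha', rfl⟩ := ha
    obtain ⟨b', hb', rfl⟩ := hb
    obtain ⟨c', hc', rfl⟩ := hc
    have h1 : a' + c' = b' + b' := by
      have h0 : ((a' : ℤ) + 1) + ((c' : ℤ) + 1) = ((b' : ℤ) + 1) + ((b' : ℤ) + 1) := habc
      omega
    have h2 := htf ha' hb' hc' h1
    simp only [h2]

lemma frequently_le (k : ℕ) (hk : 3 ≤ k) (ε : ℝ) (hε : 0 < ε) :
    ∃ᶠ N : ℕ in atTop, (R k N : ℝ) ≤ (4 + ε) * G k N := by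
  by_contra hcon
  rw [not_frequently, eventually_atTop] at hcon
  obtain ⟨N0, hN0⟩ := hcon
  set c : ℝ := 2 * k - 3 with hc
  have hk3 : (3 : ℝ) ≤ k := by exact_mod_cast hk
  have hc3 : 3 ≤ c := by rw [hc]; linarith
  obtain ⟨C, hC⟩ := exists_nat_gt ((4 + ε) / ε)
  have hC1 : 4 + ε < C * ε := by rwa [div_lt_iff₀ hε] at hC
  have hC0 : (0 : ℝ) < C := by
    have : 0 < C * ε := by linarith
    exact (pos_iff_pos_of_mul_pos this).2 hε
  have hCge : (1 : ℝ) ≤ C := by
    have : 0 < C := by exact_mod_cast hC0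
    exact_mod_cast this
  set ρ : ℝ := 32 * c * C / ((8 * c * C - 1) * (4 + ε)) with hρ
  have hcC : 3 ≤ c * C := by nlinarith
  have hden1 : 0 < 8 * c * C - 1 := by nlinarith
  have hden : 0 < (8 * c * C - 1) * (4 + ε) := mul_pos hden1 (by linarith)
  have hρ0 : 0 < ρ := by
    rw [hρ]
    apply div_pos _ hden
    nlinarith
  have hρ1 : ρ < 1 := by
    rw [hρ, div_lt_one hden]
    nlinarith [mul_pos hε hC0]
  -- one step
  have hstep : ∀ N : ℕ, N0 ≤ N → 0 < N → (R k (C * N) : ℝ) ≤ ρ * C * R k N := by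
    intro N hN hNpos
    have hC' : 0 < C := by exact_mod_cast hC0
    have h1 := compare k hk (C * N) N (Nat.mul_pos hC' hNpos)
    have h2 := hN0 N hN
    rw [not_le] at h2
    have hNr : (0 : ℝ) < N := by exact_mod_cast hNpos
    rw [← hc] at h1
    push_cast at h1
    have h3 : (R k (C * N) : ℝ) * (8 * c * C - 1) ≤ 32 * c * C ^ 2 * G k N := by
      have : (N : ℝ) ^ 2 * ((R k (C * N) : ℝ) * (8 * c * C - 1)) ≤
          (N : ℝ) ^ 2 * (32 * c * C ^ 2 * G k N) := by nlinarith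
      exact le_of_mul_le_mul_left this (by positivity)
    have h4 : 32 * c * C ^ 2 * (G k N : ℝ) * (4 + ε) ≤ 32 * c * C ^ 2 * R k N := by
      have : 0 ≤ 32 * c * (C : ℝ) ^ 2 := by positivity
      nlinarith
    have h5 : ρ * C * R k N = 32 * c * C ^ 2 * R k N / ((8 * c * C - 1) * (4 + ε)) := by
      rw [hρ]
      ring
    rw [h5, le_div_iff₀ hden]
    calc (R k (C * N) : ℝ) * ((8 * c * C - 1) * (4 + ε))
        = ((R k (C * N) : ℝ) * (8 * c * C - 1)) * (4 + ε) := by ring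
      _ ≤ (32 * c * C ^ 2 * G k N) * (4 + ε) :=
        mul_le_mul_of_nonneg_right h3 (by linarith)
      _ ≤ _ := h4
  set N1 : ℕ := N0 + 1 with hN1
  have hiter : ∀ i : ℕ, (R k (C ^ i * N1) : ℝ) ≤ (ρ * C) ^ i * N1 := by
    intro i
    induction i with
    | zero =>
      simp only [pow_zero, one_mul]
      exact_mod_cast R_le k N1
    | succ i ih =>
      have hpos : 0 < C ^ i * N1 := by
        have : 0 < C := by exact_mod_cast hC0
        positivity
      have hge : N0 ≤ C ^ i * N1 := by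
        have h1 : 1 ≤ C ^ i := Nat.one_le_pow _ _ (by exact_mod_cast hC0)
        nlinarith
      have := hstep (C ^ i * N1) hge hpos
      have e : C ^ (i + 1) * N1 = C * (C ^ i * N1) := by ring
      rw [e]
      refine this.trans ?_
      calc ρ * C * (R k (C ^ i * N1) : ℝ) ≤ ρ * C * ((ρ * C) ^ i * N1) :=
            mul_le_mul_of_nonneg_left ih (by positivity)
        _ = _ := by ring
  -- Behrend
  have hB : ∀ i : ℕ, Real.exp (-4 * √(Real.log ((C : ℝ) ^ i * N1))) ≤ ρ ^ i := by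
    intro i
    have h1 := Behrend.roth_lower_bound (N := C ^ i * N1)
    have h2 : ((rothNumberNat (C ^ i * N1) : ℕ) : ℝ) ≤ R k (C ^ i * N1) := by
      exact_mod_cast roth_le_R k hk _
    have h3 := (h1.trans h2).trans (hiter i)
    push_cast at h3
    have h4 : (ρ * C) ^ i * (N1 : ℝ) = (C : ℝ) ^ i * N1 * ρ ^ i := by
      rw [mul_pow]; ring
    have hN1' : (0 : ℝ) < N1 := by rw [hN1]; positivity
    have h5 : (0 : ℝ) < (C : ℝ) ^ i * N1 := by positivity
    rw [h4] at h3
    exact le_of_mul_le_mul_left h3 h5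
  set lam : ℝ := -Real.log ρ with hlam
  have hlam0 : 0 < lam := by
    rw [hlam]
    have := Real.log_neg hρ0 hρ1
    linarith
  have hN1r : (1 : ℝ) ≤ N1 := by rw [hN1]; push_cast; linarith [Nat.cast_nonneg (α := ℝ) N0]
  have hlC : 0 ≤ Real.log C := Real.log_nonneg hCge
  have hlN : 0 ≤ Real.log N1 := Real.log_nonneg hN1r
  have hfin : ∀ i : ℕ, ((i : ℝ) * lam) ^ 2 ≤ 16 * (i * Real.log C + Real.log N1) := by
    intro i
    have h1 := hB i
    have h2 : Real.log ((C : ℝ) ^ i * N1) = i * Real.log C + Real.log N1 := by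
      rw [Real.log_mul (by positivity) (by positivity), Real.log_pow]
    rw [h2] at h1
    have h3 := Real.log_le_log (Real.exp_pos _) h1
    rw [Real.log_exp, Real.log_pow] at h3
    have h4 : (i : ℝ) * lam ≤ 4 * √(i * Real.log C + Real.log N1) := by
      rw [hlam]; linarith
    have h5 : 0 ≤ (i : ℝ) * lam := by positivity
    have h6 : (0 : ℝ) ≤ i * Real.log C + Real.log N1 := by positivity
    calc ((i : ℝ) * lam) ^ 2 ≤ (4 * √(i * Real.log C + Real.log N1)) ^ 2 :=
          pow_le_pow_left₀ h5 h4 2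
      _ = 16 * (i * Real.log C + Real.log N1) := by
        rw [mul_pow, Real.sq_sqrt h6]; ring
  obtain ⟨i, hi⟩ := exists_nat_gt (16 * (Real.log C + Real.log N1) / lam ^ 2 + 1)
  have hl2 : 0 < lam ^ 2 := by positivity
  have hi1 : (1 : ℝ) < i := by
    have : 0 ≤ 16 * (Real.log C + Real.log N1) / lam ^ 2 := by positivity
    linarith
  have hi2 : 16 * (Real.log C + Real.log N1) < i * lam ^ 2 := by
    have : 16 * (Real.log C + Real.log N1) / lam ^ 2 < i := by linarith
    rwa [div_lt_iff₀ hl2] at this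
  have h1 := hfin i
  have h2 : (i : ℝ) * (16 * (Real.log C + Real.log N1)) < i * (i * lam ^ 2) :=
    mul_lt_mul_of_pos_left hi2 (by linarith)
  nlinarith

end H346R3.RG
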